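import Mathlib
import Pool.Agent.Y633.Dep.Thresh

/-! # Flow of weights and weights of single inputs -/

open Finset

set_option linter.unusedSectionVars false

namespace Pool.Agent.Y633.Gen

open Pool.Agent.Y633.Dep

/-- The number of live wires leaving shared gates outside the cut set. -/
lemma flow_shared {n q : ℕ} (C : Circuit n q) (E : Finset (Fin C.size)) (ρ : Fin C.size → ℕ)
    (hρ : IsRank C E ρ) (B : Finset (Fin n)) (R : Finset (Fin C.size)) (hER : E ⊆ R)
    (ℓ : Fin C.size → ℕ) (hℓ : IsWt C B R ℓ)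
    (x D : ℕ) (hx : 1 ≤ x)
    (hlow : ∀ j ∉ R, ℓ j ≠ 0 → 2 ≤ C.fanOut j → C.fanOut j ≤ x ∧ ρ j < D) :
    ∑ j ∈ univ.filter (fun j => j ∉ R ∧ 2 ≤ C.fanOut j), C.fanOut j * ℓ j ≤
      inWires C B * (2 * x) ^ D := by
  classical
  obtain ⟨y, hy⟩ : ∃ y, y = 2 * x := ⟨_, rfl⟩
  rw [← hy]
  have hy1 : 1 ≤ y := by omega
  have h1 : ∑ i, ℓ i * y ^ (D - ρ i) + ∑ j ∈ univ.filter (fun j => j ∉ R ∧ 2 ≤ C.fanOut j),
      C.fanOut j * ℓ j ≤ inWires C B * y ^ D + ∑ j ∈ Rᶜ, ℓ j * y ^ (D - ρ j) := by
    have h2 : ∀ i, ℓ i * y ^ (D - ρ i) ≤ (∑ a, swt B univ (fun _ => 0) (C.src i a)) * y ^ D +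
        ∑ a, ∑ j ∈ Rᶜ, if C.src i a = Sum.inr j then
          ℓ j * y ^ (D - (ρ j + (if 2 ≤ C.fanOut j then 1 else 0))) else 0 := by
      intro i
      rw [hℓ i, sum_mul, sum_mul, ← sum_add_distrib]
      apply sum_le_sum
      intro a _
      rcases hs : C.src i a with (i' | i') | j
      · by_cases hi' : i' ∈ B
        · simp only [swt, hi', if_true, one_mul]
          refine le_trans ?_ (Nat.le_add_right _ _)
          exact Nat.pow_le_pow_right hy1 (Nat.sub_le _ _)
        · simp [swt, hi']
      · simp [swt]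
      · simp only [swt, mem_univ, if_true, zero_mul, zero_add]
        by_cases hj : j ∈ R
        · simp [hj]
        · rw [if_neg hj]
          rw [sum_eq_single j]
          · rw [if_pos rfl]
            apply Nat.mul_le_mul_left
            apply Nat.pow_le_pow_right hy1
            have := hρ i a j hs (fun h => hj (hER h))
            omega
          · intro j' _ hne
            rw [if_neg]
            intro h
            exact hne (Sum.inr_injective h).symm
          · intro h
            exact absurd (mem_compl.2 hj) h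
    have h3 : ∑ j ∈ univ.filter (fun j => j ∉ R ∧ 2 ≤ C.fanOut j), C.fanOut j * ℓ j =
        ∑ j ∈ Rᶜ, if 2 ≤ C.fanOut j then C.fanOut j * ℓ j else 0 := by
      rw [← sum_filter]
      apply sum_congr _ (fun _ _ => rfl)
      ext j
      simp
    rw [h3]
    calc ∑ i, ℓ i * y ^ (D - ρ i) + ∑ j ∈ Rᶜ, (if 2 ≤ C.fanOut j then C.fanOut j * ℓ j else 0)
        ≤ ∑ i, ((∑ a, swt B univ (fun _ => 0) (C.src i a)) * y ^ D +
        ∑ a, ∑ j ∈ Rᶜ, if C.src i a = Sum.inr j then
          ℓ j * y ^ (D - (ρ j + (if 2 ≤ C.fanOut j then 1 else 0))) else 0) +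
          ∑ j ∈ Rᶜ, (if 2 ≤ C.fanOut j then C.fanOut j * ℓ j else 0) :=
          Nat.add_le_add_right (sum_le_sum fun i _ => h2 i) _
      _ = inWires C B * y ^ D + (∑ j ∈ Rᶜ, C.fanOut j *
          (ℓ j * y ^ (D - (ρ j + (if 2 ≤ C.fanOut j then 1 else 0)))) +
          ∑ j ∈ Rᶜ, (if 2 ≤ C.fanOut j then C.fanOut j * ℓ j else 0)) := by
          rw [sum_add_distrib, inWires, sum_mul, add_assoc]
          congr 2
          have : ∀ i, (∑ a, ∑ j ∈ Rᶜ, if C.src i a = Sum.inr j then
              ℓ j * y ^ (D - (ρ j + (if 2 ≤ C.fanOut j then 1 else 0))) else 0) =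
              ∑ j ∈ Rᶜ, (univ.filter fun a => C.src i a = Sum.inr j).card *
                (ℓ j * y ^ (D - (ρ j + (if 2 ≤ C.fanOut j then 1 else 0)))) := by
            intro i
            rw [sum_comm]
            apply sum_congr rfl
            intro j _
            rw [← sum_filter, sum_const, smul_eq_mul]
          simp only [this]
          rw [sum_comm]
          apply sum_congr rfl
          intro j _
          rw [Circuit.fanOut, sum_mul]
      _ ≤ inWires C B * y ^ D + ∑ j ∈ Rᶜ, ℓ j * y ^ (D - ρ j) := by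
          apply Nat.add_le_add_left
          rw [← sum_add_distrib]
          apply sum_le_sum
          intro j hj
          rw [mem_compl] at hj
          by_cases h0 : ℓ j = 0
          · simp [h0]
          · by_cases hf : 2 ≤ C.fanOut j
            · obtain ⟨h3, h4⟩ := hlow j hj h0 hf
              rw [if_pos hf, if_pos hf]
              have hp : 1 ≤ y ^ (D - (ρ j + 1)) := Nat.one_le_pow _ _ hy1
              calc C.fanOut j * (ℓ j * y ^ (D - (ρ j + 1))) + C.fanOut j * ℓ j
                  = C.fanOut j * ℓ j * y ^ (D - (ρ j + 1)) + C.fanOut j * ℓ j * 1 := by ring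
                _ ≤ C.fanOut j * ℓ j * y ^ (D - (ρ j + 1)) +
                    C.fanOut j * ℓ j * y ^ (D - (ρ j + 1)) := by gcongr
                _ = (2 * C.fanOut j) * (ℓ j * y ^ (D - (ρ j + 1))) := by ring
                _ ≤ y * (ℓ j * y ^ (D - (ρ j + 1))) := Nat.mul_le_mul_right _ (by omega)
                _ = ℓ j * y ^ (D - (ρ j + 1) + 1) := by rw [pow_succ]; ring
                _ = ℓ j * y ^ (D - ρ j) := by congr 2; omega
            · rw [if_neg hf, if_neg hf, add_zero, add_zero]
              calc C.fanOut j * (ℓ j * y ^ (D - ρ j)) ≤ 1 * (ℓ j * y ^ (D - ρ j)) :=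
                    Nat.mul_le_mul_right _ (by omega)
                _ = _ := one_mul _
  have h3 := sum_add_sum_compl R (fun i => ℓ i * y ^ (D - ρ i))
  omega

/-- The weight for a set of inputs is the sum of the weights for the single inputs. -/
lemma wt_add {n q : ℕ} (C : Circuit n q) (B : Finset (Fin n)) (R : Finset (Fin C.size))
    (ℓ : Fin C.size → ℕ) (hℓ : IsWt C B R ℓ) (ℓ₁ : Fin n → Fin C.size → ℕ)
    (hℓ₁ : ∀ g, IsWt C {g} R (ℓ₁ g)) :
    ∀ (m : ℕ) (j : Fin C.size), j.val < m → ℓ j = ∑ g ∈ B, ℓ₁ g j := by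
  classical
  intro m
  induction m with
  | zero => intro j hj; exact absurd hj (Nat.not_lt_zero _)
  | succ m ih =>
    intro j hj
    rw [hℓ j]
    have h1 : ∑ g ∈ B, ℓ₁ g j = ∑ g ∈ B, ∑ a, swt {g} R (ℓ₁ g) (C.src j a) := by
      apply sum_congr rfl
      intro g _
      exact hℓ₁ g j
    rw [h1, sum_comm]
    apply sum_congr rfl
    intro a _
    rcases hs : C.src j a with (i | i) | j'
    · simp only [swt, mem_singleton]
      rw [sum_ite_eq]
    · simp [swt]
    · simp only [swt]
      split_ifs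
      · simp
      · have : j'.val < j.val := C.acyclic j a j' hs
        exact ih j' (by omega)

/-- The number of wires reading an input. -/
def inFan {n q : ℕ} (C : Circuit n q) (g : Fin n) : ℕ :=
  ∑ i, (univ.filter fun a => C.src i a = Sum.inl (Sum.inl g)).card

lemma inWires_eq {n q : ℕ} (C : Circuit n q) (B : Finset (Fin n)) :
    inWires C B = ∑ g ∈ B, inFan C g := by
  classical
  unfold inWires inFan
  rw [sum_comm]
  apply sum_congr rfl
  intro i _
  simp only [card_filter]
  rw [sum_comm]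
  apply sum_congr rfl
  intro a _
  rcases hs : C.src i a with (j | j) | j
  · simp only [swt, Sum.inl.injEq]
    rw [sum_ite_eq]
  · simp [swt]
  · simp [swt]

lemma sum_inFan_le {n q : ℕ} (C : Circuit n q) : ∑ g, inFan C g ≤ C.numWires := by
  rw [← inWires_eq]
  exact inWires_le C univ

end Pool.Agent.Y633.Gen
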