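import Mathlib
import Pool.Agent.Y633.Gen.Flow

/-! # The choice of the live inputs, and the circuit of the kept wires -/

open Finset

set_option linter.unusedSectionVars false

namespace Pool.Agent.Y633.Gen

open Pool.Agent.Y633.Dep

/-- Choosing a set of small total cost. -/
lemma exists_cheap {α : Type*} [DecidableEq α] (S : Finset α) (cost : α → ℕ) (total g : ℕ)
    (hsum : ∑ i ∈ S, cost i ≤ total) (hg : 2 * g ≤ S.card) :
    ∃ G ⊆ S, G.card = g ∧ S.card * ∑ i ∈ G, cost i ≤ 2 * g * total := by
  classical
  let Low : Finset α := S.filter fun i => S.card * cost i ≤ 2 * total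
  have hHigh : 2 * (S.filter fun i => ¬ S.card * cost i ≤ 2 * total).card ≤ S.card := by
    set H := S.filter fun i => ¬ S.card * cost i ≤ 2 * total with hH
    have h1 : H.card * (2 * total + 1) ≤ S.card * total := by
      calc H.card * (2 * total + 1) = ∑ _i ∈ H, (2 * total + 1) := by
            rw [sum_const, smul_eq_mul]
        _ ≤ ∑ i ∈ H, S.card * cost i := by
            apply sum_le_sum
            intro i hi
            have := (mem_filter.1 hi).2
            omega
        _ = S.card * ∑ i ∈ H, cost i := by rw [mul_sum]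
        _ ≤ S.card * ∑ i ∈ S, cost i :=
            Nat.mul_le_mul_left _ (sum_le_sum_of_subset (filter_subset _ _))
        _ ≤ S.card * total := Nat.mul_le_mul_left _ hsum
    by_contra hcon
    push Not at hcon
    rcases Nat.eq_zero_or_pos total with h0 | h0
    · rw [h0] at h1
      have : H.card = 0 := by omega
      omega
    · have h2 : (S.card + 1) * total ≤ 2 * H.card * total := Nat.mul_le_mul_right _ hcon
      have h3 : (S.card + 1) * total = S.card * total + total := by ring
      have h4 : H.card * (2 * total + 1) = 2 * H.card * total + H.card := by ring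
      omega
  have hLow : g ≤ Low.card := by
    have := card_filter_add_card_filter_not (s := S) (fun i => S.card * cost i ≤ 2 * total)
    simp only [Low]
    omega
  obtain ⟨G, hG, hGc⟩ := exists_subset_card_eq hLow
  refine ⟨G, hG.trans (filter_subset _ _), hGc, ?_⟩
  rw [mul_sum]
  calc ∑ i ∈ G, S.card * cost i ≤ ∑ _i ∈ G, 2 * total := by
        apply sum_le_sum
        intro i hi
        exact (mem_filter.1 (hG hi)).2
    _ = 2 * g * total := by rw [sum_const, smul_eq_mul, hGc]; ring

variable {N q : ℕ}

lemma card_reading_le (C : Circuit N q) (g : Fin N) (S : Finset (Fin C.size))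
    (hS : ∀ v ∈ S, ∃ a, C.src v a = Sum.inl (Sum.inl g)) : S.card ≤ inFan C g := by
  classical
  unfold inFan
  calc S.card = ∑ _v ∈ S, 1 := by simp
    _ ≤ ∑ v ∈ S, (univ.filter fun a => C.src v a = Sum.inl (Sum.inl g)).card := by
        apply sum_le_sum
        intro v hv
        obtain ⟨a, ha⟩ := hS v hv
        exact card_pos.2 ⟨a, mem_filter.2 ⟨mem_univ _, ha⟩⟩
    _ ≤ _ := sum_le_sum_of_subset (subset_univ _)

open Classical in
lemma exists_G0 (C : Circuit N q) (r b n₀ : ℕ) (γ : Fin C.size → ℕ) (hγ : ∀ v, γ v < b)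
    (Lc Sm : Finset (Fin C.size)) (hn₀ : 1 ≤ n₀)
    (hN : C.numWires + (r + 1) * (∑ v ∈ Lc, C.arity v) + (r + 1) * (2 ^ b * n₀) ≤ (r + 1) * N) :
    ∃ (Pset : Finset ℕ) (G₀ : Finset (Fin N)), Pset.card ≤ r ∧ n₀ ≤ G₀.card ∧
      (∀ g ∈ G₀, inFan C g ≤ r) ∧
      (∀ g ∈ G₀, ∀ v ∈ Lc, ∀ a, C.src v a ≠ Sum.inl (Sum.inl g)) ∧
      (∀ g ∈ G₀, ∀ v ∈ Sm, ∀ a, C.src v a = Sum.inl (Sum.inl g) → γ v ∈ Pset) := by
  let Bad1 : Finset (Fin N) := univ.filter fun g => r < inFan C g
  let Bad2 : Finset (Fin N) := univ.filter fun g => ∃ v ∈ Lc, ∃ a, C.src v a = Sum.inl (Sum.inl g)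
  let Elig : Finset (Fin N) := univ.filter fun g =>
    inFan C g ≤ r ∧ ∀ v ∈ Lc, ∀ a, C.src v a ≠ Sum.inl (Sum.inl g)
  have hB1 : (r + 1) * Bad1.card ≤ C.numWires := by
    calc (r + 1) * Bad1.card = ∑ _g ∈ Bad1, (r + 1) := by
          rw [sum_const, smul_eq_mul, mul_comm]
      _ ≤ ∑ g ∈ Bad1, inFan C g := by
          apply sum_le_sum
          intro g hg
          exact (mem_filter.1 hg).2
      _ ≤ ∑ g, inFan C g := sum_le_sum_of_subset (subset_univ _)
      _ ≤ C.numWires := sum_inFan_le C
  have hB2 : Bad2.card ≤ ∑ v ∈ Lc, C.arity v := by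
    have h1 : Bad2 ⊆ Lc.biUnion fun v => univ.filter fun g : Fin N =>
        ∃ a, C.src v a = Sum.inl (Sum.inl g) := by
      intro g hg
      obtain ⟨_, v, hv, h3⟩ := mem_filter.1 hg
      rw [mem_biUnion]
      exact ⟨v, hv, mem_filter.2 ⟨mem_univ _, h3⟩⟩
    refine (card_le_card h1).trans (card_biUnion_le.trans ?_)
    apply sum_le_sum
    intro v _
    -- injection of the inputs read into the wires
    let f : Fin (C.arity v) → Option (Fin N) := fun a =>
      Sum.elim (Sum.elim (fun i => some i) (fun _ => none)) (fun _ => none) (C.src v a)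
    have h2 : (univ.filter fun g : Fin N => ∃ a, C.src v a = Sum.inl (Sum.inl g)).image some ⊆
        univ.image f := by
      intro o ho
      rw [mem_image] at ho
      obtain ⟨g, hg, rfl⟩ := ho
      obtain ⟨a, ha⟩ := (mem_filter.1 hg).2
      rw [mem_image]
      exact ⟨a, mem_univ _, by simp only [f, ha, Sum.elim_inl]⟩
    have h3 := card_le_card h2
    rw [card_image_of_injective _ (Option.some_injective _)] at h3
    refine h3.trans (card_image_le.trans ?_)
    simp
  have hE : N ≤ Elig.card + Bad1.card + Bad2.card := by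
    have h1 : (univ : Finset (Fin N)) ⊆ (Elig ∪ Bad1) ∪ Bad2 := by
      intro g _
      simp only [Elig, Bad1, Bad2, mem_union, mem_filter, mem_univ, true_and]
      by_cases h2 : inFan C g ≤ r
      · by_cases h3 : ∃ v ∈ Lc, ∃ a, C.src v a = Sum.inl (Sum.inl g)
        · exact Or.inr h3
        · push Not at h3
          exact Or.inl (Or.inl ⟨h2, h3⟩)
      · exact Or.inl (Or.inr (by omega))
    have h2 := card_le_card h1
    rw [card_univ, Fintype.card_fin] at h2
    refine h2.trans ((card_union_le _ _).trans ?_)
    exact Nat.add_le_add_right (card_union_le _ _) _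
  have hElig : 2 ^ b * n₀ ≤ Elig.card := by
    have h1 : (r + 1) * N ≤ (r + 1) * Elig.card + (r + 1) * Bad1.card +
        (r + 1) * Bad2.card := by
      calc (r + 1) * N ≤ (r + 1) * (Elig.card + Bad1.card + Bad2.card) :=
            Nat.mul_le_mul_left _ hE
        _ = _ := by ring
    have h2 : (r + 1) * Bad2.card ≤ (r + 1) * (∑ v ∈ Lc, C.arity v) := Nat.mul_le_mul_left _ hB2
    have h3 : (r + 1) * (2 ^ b * n₀) ≤ (r + 1) * Elig.card := by omega
    exact Nat.le_of_mul_le_mul_left h3 (by omega)
  let code : Fin N → Finset ℕ := fun g =>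
    (Sm.filter fun v => ∃ a, C.src v a = Sum.inl (Sum.inl g)).image γ
  obtain ⟨Pset, _, hfib⟩ := exists_le_card_fiber_of_mul_le_card_of_maps_to
    (s := Elig) (t := (range b).powerset) (f := code) (n := n₀)
    (by
      intro g _
      rw [mem_powerset]
      intro x hx
      simp only [code, mem_image] at hx
      obtain ⟨v, _, rfl⟩ := hx
      exact mem_range.2 (hγ v))
    ⟨∅, by simp⟩ (by rw [card_powerset, card_range]; exact hElig)
  refine ⟨Pset, Elig.filter fun g => code g = Pset, ?_, hfib, ?_, ?_, ?_⟩
  · have hne : (Elig.filter fun g => code g = Pset).Nonempty := card_pos.1 (by omega)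
    obtain ⟨g, hg⟩ := hne
    obtain ⟨hg1, hg2⟩ := mem_filter.1 hg
    rw [← hg2]
    have h1 := (mem_filter.1 hg1).2.1
    refine card_image_le.trans (le_trans ?_ h1)
    apply card_reading_le
    intro v hv
    exact (mem_filter.1 hv).2
  · intro g hg
    exact (mem_filter.1 (mem_filter.1 hg).1).2.1
  · intro g hg v hv
    exact (mem_filter.1 (mem_filter.1 hg).1).2.2 v hv
  · intro g hg v hv a ha
    rw [← (mem_filter.1 hg).2]
    simp only [code, mem_image]
    exact ⟨v, mem_filter.2 ⟨hv, a, ha⟩, rfl⟩

/-! ### The circuit of the kept wires -/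

open Classical in
/-- The circuit in which the wires between gates not in the relation `keep`, and the wires from
inputs to gates not in `mid`, are disconnected. -/
@[reducible] noncomputable def midC (C : Circuit N q) (mid : Fin C.size → Prop)
    (keep : Fin C.size → Fin C.size → Prop) : Circuit N 1 where
  size := C.size
  arity := C.arity
  src i a := Sum.elim (Sum.elim
    (fun g => if mid i then Sum.inl (Sum.inl g) else Sum.inl (Sum.inr 0))
    (fun _ => Sum.inl (Sum.inr 0)))
    (fun j => if keep j i then Sum.inr j else Sum.inl (Sum.inr 0)) (C.src i a)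
  op := C.op
  acyclic := by
    intro i a j h
    rcases hs : C.src i a with (g | g) | j'
    · rw [hs] at h
      simp only [Sum.elim_inl] at h
      split_ifs at h
    · rw [hs] at h
      simp at h
    · rw [hs] at h
      simp only [Sum.elim_inr] at h
      split_ifs at h
      rw [Sum.inr.injEq] at h
      rw [← h]
      exact C.acyclic i a j' hs
  out := C.out

lemma midC_inr (C : Circuit N q) (mid : Fin C.size → Prop)
    (keep : Fin C.size → Fin C.size → Prop) (i : Fin C.size) (a : Fin (C.arity i))
    (j : Fin C.size) :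
    (midC C mid keep).src i a = Sum.inr j ↔ C.src i a = Sum.inr j ∧ keep j i := by
  classical
  rcases hs : C.src i a with (g | g) | j'
  · simp only [midC, hs, Sum.elim_inl]
    split_ifs <;> simp
  · simp [midC, hs]
  · simp only [midC, hs, Sum.elim_inr]
    split_ifs with h
    · simp only [Sum.inr.injEq]
      constructor
      · rintro rfl
        exact ⟨rfl, h⟩
      · rintro ⟨rfl, _⟩
        rfl
    · constructor
      · intro h2
        simp at h2
      · rintro ⟨h2, h3⟩
        rw [Sum.inr.injEq] at h2
        rw [← h2] at h3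
        exact absurd h3 h

lemma midC_inl (C : Circuit N q) (mid : Fin C.size → Prop)
    (keep : Fin C.size → Fin C.size → Prop) (i : Fin C.size) (a : Fin (C.arity i))
    (g : Fin N) :
    (midC C mid keep).src i a = Sum.inl (Sum.inl g) ↔ C.src i a = Sum.inl (Sum.inl g) ∧ mid i := by
  classical
  rcases hs : C.src i a with (g' | g') | j'
  · simp only [midC, hs, Sum.elim_inl]
    split_ifs with h
    · simp [h]
    · simp [h]
  · simp [midC, hs]
  · simp only [midC, hs, Sum.elim_inr]
    split_ifs with h
    · simp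
    · simp

lemma midC_fanOut_le (C : Circuit N q) (mid : Fin C.size → Prop)
    (keep : Fin C.size → Fin C.size → Prop) (j : Fin C.size) :
    (midC C mid keep).fanOut j ≤ C.fanOut j := by
  classical
  have key : ∀ i : Fin C.size,
      (univ.filter fun a : Fin (C.arity i) => (midC C mid keep).src i a = Sum.inr j) ⊆
        univ.filter fun a : Fin (C.arity i) => C.src i a = Sum.inr j := by
    intro i a ha
    rw [mem_filter] at ha ⊢
    exact ⟨mem_univ _, ((midC_inr C mid keep i a j).1 ha.2).1⟩
  exact sum_le_sum fun i _ => card_le_card (key i)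

lemma midC_inFan_le (C : Circuit N q) (mid : Fin C.size → Prop)
    (keep : Fin C.size → Fin C.size → Prop) (g : Fin N) :
    inFan (midC C mid keep) g ≤ inFan C g := by
  classical
  have key : ∀ i : Fin C.size,
      (univ.filter fun a : Fin (C.arity i) => (midC C mid keep).src i a = Sum.inl (Sum.inl g)) ⊆
        univ.filter fun a : Fin (C.arity i) => C.src i a = Sum.inl (Sum.inl g) := by
    intro i a ha
    rw [mem_filter] at ha ⊢
    exact ⟨mem_univ _, ((midC_inl C mid keep i a g).1 ha.2).1⟩
  exact sum_le_sum fun i _ => card_le_card (key i)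

end Pool.Agent.Y633.Gen
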