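import Mathlib
import Pool.Agent.Y633.Dep.Defs
import Pool.Agent.Y633.Wire.Defs

/-!
# Stored values, and the wires that branch

Definitions only.
-/

open Finset

namespace Pool.Agent.Y633.Gen

open Pool.Agent.Y633.Dep Pool.Agent.Y633.Wire

/-- The gates outside `E` whose value is stored at time `τ`: they are computed at or before `τ`
and read by a gate that is computed after `τ`. -/
def stored {n q : ℕ} (C : Circuit n q) (E : Finset (Fin C.size)) (time : Fin C.size → ℕ)
    (τ : ℕ) : Set (Fin C.size) :=
  {j | j ∉ E ∧ time j ≤ τ ∧ ∃ i a, C.src i a = Sum.inr j ∧ τ < time i}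

open Classical in
/-- The wires that leave an input in `G`, or a gate with at least two outgoing wires which is
outside `R` and can be reached from `G` by a path avoiding `R`. -/
noncomputable def leafWires {n q : ℕ} (C : Circuit n q) (G : Finset (Fin n))
    (R : Finset (Fin C.size)) : Finset (Σ i : Fin C.size, Fin (C.arity i)) :=
  univ.filter fun w => (∃ g ∈ G, C.src w.1 w.2 = Sum.inl (Sum.inl g)) ∨
    ∃ u, C.src w.1 w.2 = Sum.inr u ∧ u ∉ R ∧ 2 ≤ C.fanOut u ∧ Reached C G R u

end Pool.Agent.Y633.Gen
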