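import Mathlib
import Pool.Agent.Y633.Lay.Pieces

/-! # Weighted time intervals, buckets and pieces -/

open Finset

set_option linter.unusedSectionVars false

namespace Pool.Agent.Y633.Gen

lemma sum_biUnion_le' {ι κ : Type*} [DecidableEq κ] (P : Finset ι) (S : ι → Finset κ)
    (f : κ → ℕ) : ∑ v ∈ P.biUnion S, f v ≤ ∑ γ ∈ P, ∑ v ∈ S γ, f v := by
  classical
  induction P using Finset.induction_on with
  | empty => simp
  | insert a P ha ih =>
    rw [biUnion_insert, sum_insert ha]
    have h := sum_union_inter (s₁ := S a) (s₂ := P.biUnion S) (f := f)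
    omega

section

variable {s : ℕ} (time wt : Fin s → ℕ)

/-- The weight of the gates with time at most `τ`. -/
def cumW (τ : ℕ) : ℕ := ∑ v ∈ univ.filter (fun v => time v ≤ τ), wt v

/-- The weight of the gates with time less than `τ`. -/
def cumL (τ : ℕ) : ℕ := ∑ v ∈ univ.filter (fun v => time v < τ), wt v

lemma cumW_mono {τ τ' : ℕ} (h : τ ≤ τ') : cumW time wt τ ≤ cumW time wt τ' := by
  apply sum_le_sum_of_subset
  intro v hv
  simp only [mem_filter, mem_univ, true_and] at hv ⊢
  omega

lemma cumW_le_cumL {τ τ' : ℕ} (h : τ < τ') : cumW time wt τ ≤ cumL time wt τ' := by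
  apply sum_le_sum_of_subset
  intro v hv
  simp only [mem_filter, mem_univ, true_and] at hv ⊢
  omega

lemma cumL_le_cumW {τ τ' : ℕ} (h : τ ≤ τ') : cumL time wt τ ≤ cumW time wt τ' := by
  apply sum_le_sum_of_subset
  intro v hv
  simp only [mem_filter, mem_univ, true_and] at hv ⊢
  omega

lemma cumL_mono {τ τ' : ℕ} (h : τ ≤ τ') : cumL time wt τ ≤ cumL time wt τ' := by
  apply sum_le_sum_of_subset
  intro v hv
  simp only [mem_filter, mem_univ, true_and] at hv ⊢
  omega

lemma cumW_le_total (τ : ℕ) : cumW time wt τ ≤ ∑ v, wt v :=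
  sum_le_sum_of_subset (subset_univ _)

lemma cumL_le_total (τ : ℕ) : cumL time wt τ ≤ ∑ v, wt v :=
  sum_le_sum_of_subset (subset_univ _)

/-- The weight of gates within an interval of the cumulative weight. -/
lemma interval_wt (S : Finset (Fin s)) (X Y : ℕ) (h : ∀ v ∈ S, X ≤ cumL time wt (time v) ∧
    cumW time wt (time v) ≤ Y) : ∑ v ∈ S, wt v ≤ Y - X := by
  classical
  by_cases hne : S.Nonempty
  · obtain ⟨v₀, hv₀, hmin⟩ := exists_min_image S time hne
    obtain ⟨v₁, hv₁, hmax⟩ := exists_max_image S time hne
    have h1 : ∑ v ∈ S, wt v + cumL time wt (time v₀) ≤ cumW time wt (time v₁) := by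
      unfold cumL cumW
      rw [← sum_union]
      · apply sum_le_sum_of_subset
        intro v hv
        rw [mem_union] at hv
        simp only [mem_filter, mem_univ, true_and] at hv ⊢
        rcases hv with hv | hv
        · exact hmax v hv
        · have := hmin v₁ hv₁
          omega
      · rw [disjoint_left]
        intro v hv hv'
        simp only [mem_filter, mem_univ, true_and] at hv'
        have := hmin v hv
        omega
    have h2 := (h v₀ hv₀).1
    have h3 := (h v₁ hv₁).2
    omega
  · rw [not_nonempty_iff_eq_empty] at hne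
    rw [hne]
    simp

end

section

variable {s : ℕ} (time wt : Fin s → ℕ) (A : Finset ℕ) (T : ℕ → ℕ) (W Q : ℕ)

/-- The same side of all cuts. -/
def Same (u v : Fin s) : Prop := ∀ β ∈ A, (T β < time u ↔ T β < time v)

/-- At the upper end of a piece. -/
def Upper (v : Fin s) : Prop := ∃ β ∈ A, cumL time wt (time v) / W = β ∧ time v ≤ T β

/-- At the lower end of a piece. -/
def Lower (v : Fin s) : Prop := ∃ β ∈ A, cumW time wt (time v) / W = β ∧ T β < time v

/-- In a big piece. -/
def BigP (v : Fin s) : Prop := ∀ β ∈ A, ∀ β' ∈ A, T β < time v → time v ≤ T β' → β + Q < β'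

variable {time wt A T W Q}

lemma Same.symm {u v : Fin s} (h : Same time A T u v) : Same time A T v u :=
  fun β hβ => (h β hβ).symm

lemma Same.trans {u v w : Fin s} (h : Same time A T u v) (h' : Same time A T v w) :
    Same time A T u w := fun β hβ => (h β hβ).trans (h' β hβ)

lemma Same.big {u v : Fin s} (h : Same time A T u v) (hu : BigP time A T Q u) :
    BigP time A T Q v := by
  intro β hβ β' hβ' h1 h2
  apply hu β hβ β' hβ' ((h β hβ).2 h1)
  by_contra hcon
  push Not at hcon
  have := (h β' hβ').1 hcon
  omega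

lemma mid_fat (hT : ∀ β ∈ A, cumW time wt (T β) / W = β) {u v : Fin s}
    (hu : ¬ Lower time wt A T W u) (hv : ¬ Upper time wt A T W v) (h : Same time A T u v)
    {τ : ℕ} (h1 : time u ≤ τ) (h2 : τ < time v) : cumW time wt τ / W ∉ A := by
  intro hβ
  obtain ⟨β, hβe⟩ : ∃ β, β = cumW time wt τ / W := ⟨_, rfl⟩
  rw [← hβe] at hβ
  have hTβ := hT β hβ
  by_cases h3 : T β < time u
  · apply hu
    refine ⟨β, hβ, ?_, h3⟩
    have h4 : cumW time wt (T β) / W ≤ cumW time wt (time u) / W :=
      Nat.div_le_div_right (cumW_mono _ _ h3.le)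
    have h5 : cumW time wt (time u) / W ≤ cumW time wt τ / W :=
      Nat.div_le_div_right (cumW_mono _ _ h1)
    omega
  · have h4 : ¬ T β < time v := fun h5 => h3 ((h β hβ).2 h5)
    apply hv
    refine ⟨β, hβ, ?_, by omega⟩
    have h5 : cumW time wt τ / W ≤ cumL time wt (time v) / W :=
      Nat.div_le_div_right (cumW_le_cumL _ _ h2)
    have h6 : cumL time wt (time v) / W ≤ cumW time wt (T β) / W :=
      Nat.div_le_div_right (cumL_le_cumW _ _ (by omega))
    omega

lemma upper_step (hT : ∀ β ∈ A, cumW time wt (T β) / W = β) {u v : Fin s}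
    (hu : Upper time wt A T W u) (h : Same time A T u v) (huv : time u ≤ time v) :
    Upper time wt A T W v := by
  obtain ⟨β, hβ, h1, h2⟩ := hu
  have hTβ := hT β hβ
  have h4 : ¬ T β < time v := fun h5 => by
    have := (h β hβ).2 h5
    omega
  refine ⟨β, hβ, ?_, by omega⟩
  have h5 : cumL time wt (time u) / W ≤ cumL time wt (time v) / W :=
    Nat.div_le_div_right (cumL_mono _ _ huv)
  have h6 : cumL time wt (time v) / W ≤ cumW time wt (T β) / W :=
    Nat.div_le_div_right (cumL_le_cumW _ _ (by omega))
  omega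

lemma lower_step (hT : ∀ β ∈ A, cumW time wt (T β) / W = β) {u v : Fin s}
    (hv : Lower time wt A T W v) (h : Same time A T u v) (huv : time u ≤ time v) :
    Lower time wt A T W u := by
  obtain ⟨β, hβ, h1, h2⟩ := hv
  have hTβ := hT β hβ
  have h3 := (h β hβ).2 h2
  refine ⟨β, hβ, ?_, h3⟩
  have h5 : cumW time wt (T β) / W ≤ cumW time wt (time u) / W :=
    Nat.div_le_div_right (cumW_mono _ _ h3.le)
  have h6 : cumW time wt (time u) / W ≤ cumW time wt (time v) / W :=
    Nat.div_le_div_right (cumW_mono _ _ huv)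
  omega

lemma bucket_bounds {W x β : ℕ} (hW : 1 ≤ W) (h : x / W = β) : β * W ≤ x ∧ x < (β + 1) * W := by
  constructor
  · rw [← h]; exact Nat.div_mul_le_self _ _
  · have := Nat.lt_mul_div_succ x (b := W) (by omega)
    rw [h] at this
    calc x < W * (β + 1) := this
      _ = (β + 1) * W := mul_comm _ _

open Classical in
/-- The weight of the upper ends of big pieces. -/
lemma upper_wt (M : ℕ) (hW : 1 ≤ W) (hQ : 1 ≤ Q) (hT : ∀ β ∈ A, cumW time wt (T β) / W = β)
    (hM : ∀ β ∈ A, β ≤ M) :
    ∑ v ∈ univ.filter (fun v => BigP time A T Q v ∧ Upper time wt A T W v), wt v ≤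
      (M / Q + 1) * W := by
  let B : Finset ℕ := A.filter fun β => ∀ β' ∈ A, β' < β → β' + Q < β
  have hmaps : ∀ v ∈ univ.filter (fun v => BigP time A T Q v ∧ Upper time wt A T W v),
      cumL time wt (time v) / W ∈ B := by
    intro v hv
    obtain ⟨hbig, β, hβ, h1, h2⟩ := (mem_filter.1 hv).2
    rw [h1]
    refine mem_filter.2 ⟨hβ, ?_⟩
    intro β' hβ' hlt
    refine hbig β' hβ' β hβ ?_ h2
    by_contra hcon
    push Not at hcon
    have h3 : cumL time wt (time v) / W ≤ cumW time wt (T β') / W :=
      Nat.div_le_div_right (cumL_le_cumW _ _ hcon)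
    rw [hT β' hβ'] at h3
    omega
  rw [← sum_fiberwise_of_maps_to hmaps]
  have hB : B.card ≤ M / Q + 1 := by
    apply Lay.card_sep_le B M Q hQ
    · intro β hβ
      exact hM β (mem_filter.1 hβ).1
    · intro β hβ β' hβ' hlt
      exact (mem_filter.1 hβ').2 β (mem_filter.1 hβ).1 hlt
  calc ∑ β ∈ B, ∑ v ∈ (univ.filter (fun v => BigP time A T Q v ∧
        Upper time wt A T W v)).filter (fun v => cumL time wt (time v) / W = β), wt v
      ≤ ∑ _β ∈ B, W := by
        apply sum_le_sum
        intro β hβ
        have h1 := interval_wt time wt ((univ.filter (fun v => BigP time A T Q v ∧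
          Upper time wt A T W v)).filter (fun v => cumL time wt (time v) / W = β))
          (β * W) ((β + 1) * W) (by
            intro v hv
            obtain ⟨hv1, hv2⟩ := mem_filter.1 hv
            obtain ⟨hbig, β', hβ', h1, h2⟩ := (mem_filter.1 hv1).2
            have hββ : β' = β := by omega
            rw [hββ] at hβ' h1 h2
            have h3 := bucket_bounds hW h1
            refine ⟨h3.1, ?_⟩
            have h4 := bucket_bounds hW (hT β hβ')
            have h5 := cumW_mono time wt h2
            omega)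
        have h2 : (β + 1) * W - β * W = W := by
          rw [add_mul, one_mul]; omega
        omega
    _ = B.card * W := by rw [sum_const, smul_eq_mul]
    _ ≤ _ := Nat.mul_le_mul_right _ hB

open Classical in
/-- The weight of the lower ends of big pieces. -/
lemma lower_wt (M : ℕ) (hW : 1 ≤ W) (hQ : 1 ≤ Q) (hT : ∀ β ∈ A, cumW time wt (T β) / W = β)
    (hM : ∀ β ∈ A, β ≤ M) :
    ∑ v ∈ univ.filter (fun v => BigP time A T Q v ∧ Lower time wt A T W v), wt v ≤
      (M / Q + 1) * W := by
  let B : Finset ℕ := A.filter fun β => ∀ β' ∈ A, β < β' → β + Q < β'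
  have hmaps : ∀ v ∈ univ.filter (fun v => BigP time A T Q v ∧ Lower time wt A T W v),
      cumW time wt (time v) / W ∈ B := by
    intro v hv
    obtain ⟨hbig, β, hβ, h1, h2⟩ := (mem_filter.1 hv).2
    rw [h1]
    refine mem_filter.2 ⟨hβ, ?_⟩
    intro β' hβ' hlt
    refine hbig β hβ β' hβ' h2 ?_
    by_contra hcon
    push Not at hcon
    have h3 : cumW time wt (T β') / W ≤ cumW time wt (time v) / W :=
      Nat.div_le_div_right (cumW_mono _ _ hcon.le)
    rw [hT β' hβ'] at h3
    omega
  rw [← sum_fiberwise_of_maps_to hmaps]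
  have hB : B.card ≤ M / Q + 1 := by
    apply Lay.card_sep_le B M Q hQ
    · intro β hβ
      exact hM β (mem_filter.1 hβ).1
    · intro β hβ β' hβ' hlt
      exact (mem_filter.1 hβ).2 β' (mem_filter.1 hβ').1 hlt
  calc ∑ β ∈ B, ∑ v ∈ (univ.filter (fun v => BigP time A T Q v ∧
        Lower time wt A T W v)).filter (fun v => cumW time wt (time v) / W = β), wt v
      ≤ ∑ _β ∈ B, W := by
        apply sum_le_sum
        intro β hβ
        have h1 := interval_wt time wt ((univ.filter (fun v => BigP time A T Q v ∧
          Lower time wt A T W v)).filter (fun v => cumW time wt (time v) / W = β))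
          (β * W) ((β + 1) * W) (by
            intro v hv
            obtain ⟨hv1, hv2⟩ := mem_filter.1 hv
            obtain ⟨hbig, β', hβ', h1, h2⟩ := (mem_filter.1 hv1).2
            have hββ : β' = β := by omega
            rw [hββ] at hβ' h1 h2
            have h3 := bucket_bounds hW h1
            refine ⟨?_, h3.2.le⟩
            have h4 := bucket_bounds hW (hT β hβ')
            have h5 := cumW_le_cumL time wt h2
            omega)
        have h2 : (β + 1) * W - β * W = W := by
          rw [add_mul, one_mul]; omega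
        omega
    _ = B.card * W := by rw [sum_const, smul_eq_mul]
    _ ≤ _ := Nat.mul_le_mul_right _ hB

open Classical in
/-- The weight of the touched small pieces. -/
lemma small_wt (W₂ : ℕ) (hW : 1 ≤ W) (hW₂ : (Q + 1) * W ≤ W₂)
    (hT : ∀ β ∈ A, cumW time wt (T β) / W = β) (P : Finset ℕ) :
    ∑ v ∈ univ.filter (fun v => ¬ BigP time A T Q v ∧
      ∃ j, Same time A T j v ∧ cumL time wt (time j) / W₂ ∈ P), wt v ≤ 3 * P.card * W₂ := by
  have hW₂pos : 1 ≤ W₂ := by nlinarith
  have hsub : univ.filter (fun v => ¬ BigP time A T Q v ∧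
      ∃ j, Same time A T j v ∧ cumL time wt (time j) / W₂ ∈ P) ⊆
      P.biUnion fun γ => univ.filter (fun v => ¬ BigP time A T Q v ∧
        ∃ j, Same time A T j v ∧ cumL time wt (time j) / W₂ = γ) := by
    intro v hv
    obtain ⟨h1, j, h2, h3⟩ := (mem_filter.1 hv).2
    rw [mem_biUnion]
    exact ⟨_, h3, mem_filter.2 ⟨mem_univ _, h1, j, h2, rfl⟩⟩
  have hle : ∑ v ∈ univ.filter (fun v => ¬ BigP time A T Q v ∧
      ∃ j, Same time A T j v ∧ cumL time wt (time j) / W₂ ∈ P), wt v ≤
      ∑ γ ∈ P, ∑ v ∈ univ.filter (fun v => ¬ BigP time A T Q v ∧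
        ∃ j, Same time A T j v ∧ cumL time wt (time j) / W₂ = γ), wt v :=
    (sum_le_sum_of_subset hsub).trans (sum_biUnion_le' _ _ _)
  refine hle.trans ?_
  calc ∑ γ ∈ P, ∑ v ∈ univ.filter (fun v => ¬ BigP time A T Q v ∧
        ∃ j, Same time A T j v ∧ cumL time wt (time j) / W₂ = γ), wt v
      ≤ ∑ _γ ∈ P, 3 * W₂ := by
        apply sum_le_sum
        intro γ _
        have h1 := interval_wt time wt (univ.filter (fun v => ¬ BigP time A T Q v ∧
          ∃ j, Same time A T j v ∧ cumL time wt (time j) / W₂ = γ))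
          (γ * W₂ - W₂) ((γ + 2) * W₂) (by
            intro v hv
            obtain ⟨hbig, j, hj, hγ⟩ := (mem_filter.1 hv).2
            unfold BigP at hbig
            push Not at hbig
            obtain ⟨β, hβ, β', hβ', h1, h2, h3⟩ := hbig
            have hb := bucket_bounds hW (hT β hβ)
            have hb' := bucket_bounds hW (hT β' hβ')
            have h4 := (hj β hβ).2 h1
            have h5 : time j ≤ T β' := by
              by_contra hcon
              push Not at hcon
              have := (hj β' hβ').1 hcon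
              omega
            have h6 : (β' + 1) * W ≤ β * W + (Q + 1) * W := by
              rw [← add_mul]
              exact Nat.mul_le_mul_right _ (by omega)
            have e1 := cumW_le_cumL time wt h1
            have e2 := cumW_mono time wt h2
            have e3 := cumW_le_cumL time wt h4
            have e4 := cumL_le_cumW time wt h5
            have hg := bucket_bounds hW₂pos hγ
            have h7 : (γ + 1) * W₂ = γ * W₂ + W₂ := by ring
            have h8 : (γ + 2) * W₂ = γ * W₂ + 2 * W₂ := by ring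
            constructor <;> omega)
        have h2 : (γ + 2) * W₂ = γ * W₂ + 2 * W₂ := by ring
        omega
    _ = 3 * P.card * W₂ := by rw [sum_const, smul_eq_mul]; ring

end

end Pool.Agent.Y633.Gen
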