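import Mathlib
import Pool.Agent.Y633.Dep.Main
import Pool.Agent.Y633.Gen.Closure

/-! # The choice of the live inputs for circuits of bounded depth of sharing -/

open Finset

set_option linter.unusedSectionVars false

namespace Pool.Agent.Y633.Gen

open Pool.Agent.Y633.Dep Pool.Agent.Y633.Wire

theorem mid_choice (c e h : ℕ) (Φ : ℕ → ℕ) : ∃ Y : ℕ, ∀ (N : ℕ) (C : Circuit N 1),
    C.numWires ≤ c * N → C.SharingDepthLE ∅ h →
    ∃ (x y : ℕ) (Rc : Finset (Fin C.size)), 1 ≤ x ∧ x ≤ Y ∧ Φ x ≤ y ∧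
      ∀ (G₀ : Finset (Fin N)) (g₀ : ℕ), 2 * g₀ ≤ G₀.card → ∃ G ⊆ G₀, G.card = g₀ ∧
        ∃ ℓ : Fin C.size → ℕ, IsWt C G Rc ℓ ∧
          (∑ j ∈ univ.filter (fun j => j ∉ Rc ∧ 2 ≤ C.fanOut j), C.fanOut j * ℓ j ≤
            inWires C G * (2 * x) ^ h) ∧
          ∃ hi wi : ℕ, (Rc.filter fun v => ℓ v ≠ 0).card ≤ 1 + hi + wi ∧ y * hi ≤ c * N ∧
            e * (G₀.card * wi) ≤ 2 * g₀ * (h * N) := by
  classical
  obtain ⟨Y, hY⟩ := exists_thresh c e h (fun x => Φ x + x)
  refine ⟨Y, ?_⟩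
  intro N C hwires hdepth
  obtain ⟨ρ, hρ, hρd⟩ := exists_rank C ∅ h hdepth
  obtain ⟨X, x, y, hx1, hΦ, hyY, hXx, hwin⟩ := hY N 1 C ∅ ρ hρ hwires
  beta_reduce at hΦ
  obtain ⟨Rc, hRc⟩ : ∃ Rc, Rc = cutX C ∅ ρ X := ⟨_, rfl⟩
  refine ⟨x, y, Rc, hx1, by omega, by omega, ?_⟩
  intro G₀ g₀ hg₀
  obtain ⟨ℓa, hℓa⟩ := exists_wt C univ Rc
  choose ℓ₁ hℓ₁ using fun g : Fin N => exists_wt C {g} Rc
  obtain ⟨Win, hWin⟩ : ∃ Win : Finset (Fin C.size),
    Win = (range h).biUnion fun l => window C ρ l (X l) y := ⟨_, rfl⟩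
  have htot : e * ∑ v ∈ Win, ℓa v ≤ h * N := by
    have h1 : ∑ v ∈ Win, ℓa v ≤ ∑ l ∈ range h, ∑ v ∈ window C ρ l (X l) y, ℓa v := by
      rw [hWin]
      exact sum_biUnion_le' _ _ _
    calc e * ∑ v ∈ Win, ℓa v ≤ e * ∑ l ∈ range h, ∑ v ∈ window C ρ l (X l) y, ℓa v :=
          Nat.mul_le_mul_left _ h1
      _ = ∑ l ∈ range h, e * ∑ v ∈ window C ρ l (X l) y, ℓa v := by rw [mul_sum]
      _ ≤ ∑ _l ∈ range h, N := by
          apply sum_le_sum
          intro l hl
          exact hwin ℓa (by rw [← hRc]; exact hℓa) l (mem_range.1 hl)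
      _ = h * N := by rw [sum_const, card_range, smul_eq_mul]
  have hcost : ∑ g ∈ G₀, ∑ v ∈ Win, ℓ₁ g v ≤ ∑ v ∈ Win, ℓa v := by
    calc ∑ g ∈ G₀, ∑ v ∈ Win, ℓ₁ g v ≤ ∑ g, ∑ v ∈ Win, ℓ₁ g v :=
          sum_le_sum_of_subset (subset_univ _)
      _ = ∑ v ∈ Win, ∑ g, ℓ₁ g v := sum_comm
      _ = ∑ v ∈ Win, ℓa v := by
          apply sum_congr rfl
          intro v _
          exact (wt_add C univ Rc ℓa hℓa ℓ₁ hℓ₁ (v.val + 1) v (Nat.lt_succ_self _)).symm
  obtain ⟨G, hGsub, hGcard, hGcost⟩ := exists_cheap G₀ (fun g => ∑ v ∈ Win, ℓ₁ g v) _ g₀ hcost hg₀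
  beta_reduce at hGcost
  obtain ⟨ℓ, hℓ⟩ := exists_wt C G Rc
  have hℓsum : ∀ v, ℓ v = ∑ g ∈ G, ℓ₁ g v := fun v =>
    wt_add C G Rc ℓ hℓ ℓ₁ hℓ₁ (v.val + 1) v (Nat.lt_succ_self _)
  refine ⟨G, hGsub, hGcard, ℓ, hℓ, ?_, (univ.filter fun v => y < C.fanOut v).card,
    (Win.filter fun v => ℓ v ≠ 0).card, ?_, ?_, ?_⟩
  · refine flow_shared C ∅ ρ hρ G Rc (empty_subset _) ℓ hℓ x h hx1 ?_
    intro j hj _ h2
    have h3 := hρd j (notMem_empty _)
    rw [if_pos h2] at h3
    rw [hRc, mem_cutX, not_or] at hj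
    have h4 : C.fanOut j ≤ X (ρ j) := by
      by_contra hcon
      exact hj.2 ⟨h2, by omega⟩
    exact ⟨h4.trans (hXx _ (by omega)), by omega⟩
  · have hsub : (Rc.filter fun v => ℓ v ≠ 0) ⊆
        ({C.out} ∪ univ.filter fun v => y < C.fanOut v) ∪ (Win.filter fun v => ℓ v ≠ 0) := by
      intro v hv
      obtain ⟨hv1, hv2⟩ := mem_filter.1 hv
      rw [hRc, mem_cutX] at hv1
      simp only [mem_union, mem_singleton, mem_filter, mem_univ, true_and]
      rcases hv1 with (h1 | h1) | h1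
      · exact Or.inl (Or.inl h1)
      · exact absurd h1 (notMem_empty _)
      · by_cases h5 : y < C.fanOut v
        · exact Or.inl (Or.inr h5)
        · refine Or.inr ⟨?_, hv2⟩
          have h3 := hρd v (notMem_empty _)
          rw [if_pos h1.1] at h3
          rw [hWin, mem_biUnion]
          exact ⟨ρ v, mem_range.2 (by omega), mem_window.2 ⟨h1.1, rfl, h1.2, by omega⟩⟩
    refine (card_le_card hsub).trans ((card_union_le _ _).trans ?_)
    apply Nat.add_le_add_right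
    refine (card_union_le _ _).trans ?_
    rw [card_singleton]
  · rw [mul_comm]
    exact (high_le C y).trans hwires
  · have h1 : (Win.filter fun v => ℓ v ≠ 0).card ≤ ∑ g ∈ G, ∑ v ∈ Win, ℓ₁ g v := by
      calc (Win.filter fun v => ℓ v ≠ 0).card = ∑ v ∈ Win, if ℓ v ≠ 0 then 1 else 0 := by
            rw [card_filter]
        _ ≤ ∑ v ∈ Win, ℓ v := by
            apply sum_le_sum
            intro v _
            split_ifs <;> omega
        _ = ∑ v ∈ Win, ∑ g ∈ G, ℓ₁ g v := by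
            apply sum_congr rfl
            intro v _
            exact hℓsum v
        _ = _ := sum_comm
    calc e * (G₀.card * (Win.filter fun v => ℓ v ≠ 0).card)
        ≤ e * (G₀.card * ∑ g ∈ G, ∑ v ∈ Win, ℓ₁ g v) := by gcongr
      _ ≤ e * (2 * g₀ * ∑ v ∈ Win, ℓa v) := Nat.mul_le_mul_left _ hGcost
      _ = 2 * g₀ * (e * ∑ v ∈ Win, ℓa v) := by ring
      _ ≤ 2 * g₀ * (h * N) := Nat.mul_le_mul_left _ htot

section

variable {n q : ℕ} {C : Circuit n q} {E : Finset (Fin C.size)} {time : Fin C.size → ℕ}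
  {A : Finset ℕ} {T : ℕ → ℕ} {W Q : ℕ}

lemma chain_mid : ∀ (l : List (Fin C.size)) (w : Fin C.size),
    (l ++ [w]).IsChain (fun j i => ∃ a, C.src i a = Sum.inr j ∧ Keep C E time A T W Q j i) →
    ∀ v ∈ l, v ∉ E ∧ Mid C time A T W Q v := by
  intro l
  induction l with
  | nil => intro w _ v hv; simp at hv
  | cons u l ih =>
    intro w h v hv
    rw [List.mem_cons] at hv
    have h2 : (l ++ [w]).IsChain
        (fun j i => ∃ a, C.src i a = Sum.inr j ∧ Keep C E time A T W Q j i) := by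
      rw [List.cons_append, List.isChain_cons] at h
      exact h.2
    rcases hv with rfl | hv
    · cases l with
      | nil =>
        rw [List.cons_append, List.nil_append, List.isChain_cons_cons] at h
        obtain ⟨⟨a, _, hk⟩, _⟩ := h
        exact ⟨hk.1, hk.2.1⟩
      | cons u' l =>
        rw [List.cons_append, List.cons_append, List.isChain_cons_cons] at h
        obtain ⟨⟨a, _, hk⟩, _⟩ := h
        exact ⟨hk.1, hk.2.1⟩
    · exact ih w h2 v hv

lemma chain_same : ∀ (l : List (Fin C.size)) (w : Fin C.size),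
    (w :: l).IsChain (fun j i => ∃ a, C.src i a = Sum.inr j ∧ Keep C E time A T W Q j i) →
    ∀ v ∈ w :: l, Same time A T w v := by
  intro l
  induction l with
  | nil =>
    intro w _ v hv
    rw [List.mem_singleton] at hv
    rw [hv]
    exact fun β _ => Iff.rfl
  | cons u l ih =>
    intro w h v hv
    rw [List.mem_cons] at hv
    rw [List.isChain_cons_cons] at h
    obtain ⟨⟨a, _, hk⟩, h2⟩ := h
    rcases hv with rfl | hv
    · exact fun β _ => Iff.rfl
    · exact hk.2.2.2.trans (ih u h2 v hv)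

/-- In the circuit of the kept wires the depth of sharing is bounded. -/
lemma midC_sharing (N D h : ℕ)
    (hT : ∀ β ∈ A, cumW time (wtC C) (T β) / W = β)
    (hthin : ∀ τ, D * (stored C E time τ).ncard ≤ N → cumW time (wtC C) τ / W ∈ A)
    (hpath : ∀ l : List (Fin C.size), l.IsChain (fun u v => ∃ a, C.src v a = Sum.inr u) →
      (∀ v ∈ l, v ∉ E) → h < l.countP (fun v => 2 ≤ C.fanOut v) →
      ∃ u ∈ l, ∃ v ∈ l, ∃ τ, time u ≤ τ ∧ τ < time v ∧ D * (stored C E time τ).ncard ≤ N) :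
    (midC C (Mid C time A T W Q) (Keep C E time A T W Q)).SharingDepthLE ∅ (h + 1) := by
  intro l hl _
  have hl' : (l : List (Fin C.size)).IsChain
      (fun j i => ∃ a, C.src i a = Sum.inr j ∧ Keep C E time A T W Q j i) := by
    refine List.IsChain.imp ?_ hl
    rintro j i ⟨a, ha⟩
    exact ⟨a, (midC_inr C _ _ i a j).1 ha⟩
  rcases List.eq_nil_or_concat' l with rfl | ⟨l', w, rfl⟩
  · simp
  · rw [List.countP_append]
    have h1 : List.countP (fun j => decide (2 ≤
        (midC C (Mid C time A T W Q) (Keep C E time A T W Q)).fanOut j)) [w] ≤ 1 := by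
      exact (List.countP_le_length).trans (by simp)
    refine Nat.add_le_add ?_ h1
    by_contra hcon
    push Not at hcon
    have hmid := chain_mid (C := C) l' w hl'
    have hchain : l'.IsChain
        (fun j i => ∃ a, C.src i a = Sum.inr j ∧ Keep C E time A T W Q j i) := by
      rw [List.isChain_append] at hl'
      exact hl'.1
    have h2 : List.countP (fun j => decide (2 ≤
        (midC C (Mid C time A T W Q) (Keep C E time A T W Q)).fanOut j)) l' ≤
        List.countP (fun j => decide (2 ≤ C.fanOut j)) l' := by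
      apply List.countP_mono_left
      intro x _ hx
      rw [decide_eq_true_eq] at hx ⊢
      exact hx.trans (midC_fanOut_le C _ _ x)
    obtain ⟨u, hu, v, hv, τ, h3, h4, h5⟩ := hpath l'
      (List.IsChain.imp (fun j i ⟨a, ha, _⟩ => ⟨a, ha⟩) hchain)
      (fun v hv => (hmid v hv).1) (lt_of_lt_of_le hcon h2)
    have hsame : Same time A T u v := by
      cases l' with
      | nil => simp at hu
      | cons u' l' =>
        exact (chain_same (C := C) l' u' hchain u hu).symm.trans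
          (chain_same (C := C) l' u' hchain v hv)
    exact mid_fat hT (hmid u hu).2.2.2 (hmid v hv).2.2.1 hsame h3 h4 (hthin τ h5)

end

end Pool.Agent.Y633.Gen
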