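import Mathlib
import Pool.Agent.Y633.Gen.MidChoice
import Pool.Agent.Y633.Lay.Main

/-! # Live inputs and a small cut set, for circuits of unbounded fan-in -/

open Finset

set_option linter.unusedSectionVars false

namespace Pool.Agent.Y633.Gen

open Pool.Agent.Y633.Dep Pool.Agent.Y633.Wire Pool.Agent.Y633.Lay

lemma log_small {N B : ℕ} (hN : 16 * B ^ 2 ≤ N) (hB : 1 ≤ B) :
    B * (Nat.log 2 N + 3) ≤ N := by
  have hN1 : 16 ≤ N := by nlinarith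
  obtain ⟨l, hl⟩ : ∃ l, l = Nat.log 2 N := ⟨_, rfl⟩
  rw [← hl]
  have h1 : 2 ^ l ≤ N := by rw [hl]; exact Nat.pow_log_le_self 2 (by omega)
  have h2 : l ^ 2 ≤ 4 * N := (sq_le_two_pow l).trans (Nat.mul_le_mul_left _ h1)
  have h3 : 2 * (B * l) ≤ N := by
    by_contra hcon
    push Not at hcon
    have h4 : N * N < (2 * (B * l)) * (2 * (B * l)) := Nat.mul_lt_mul'' hcon hcon
    have h5 : (2 * (B * l)) * (2 * (B * l)) = 4 * B ^ 2 * l ^ 2 := by ring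
    have h6 : 4 * B ^ 2 * l ^ 2 ≤ 4 * B ^ 2 * (4 * N) := Nat.mul_le_mul_left _ h2
    have h7 : 4 * B ^ 2 * (4 * N) = 16 * B ^ 2 * N := by ring
    have h8 : 16 * B ^ 2 * N ≤ N * N := Nat.mul_le_mul_right _ hN
    omega
  have h4 : 6 * B ≤ N := by nlinarith
  have h5 : B * (l + 3) = B * l + 3 * B := by ring
  omega

lemma num1 {C₁ c : ℕ} (hc : 1 ≤ c) : 48 * C₁ ≤ 384 * C₁ * c + 1 := by
  have h1 : 384 * C₁ ≤ 384 * C₁ * c := Nat.le_mul_of_pos_right _ hc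
  omega

lemma num2 {C₁ r : ℕ} (hC : 1 ≤ C₁) (hr : 1 ≤ r) : 24 ≤ 24 * C₁ * r := by
  have h1 : 24 * C₁ ≤ 24 * C₁ * r := Nat.le_mul_of_pos_right _ hr
  omega

lemma num3 {C₁ c : ℕ} (hC : 1 ≤ C₁) (hc : 1 ≤ c) : 1 ≤ 384 * C₁ * c := by
  have h1 : 384 * C₁ ≤ 384 * C₁ * c := Nat.le_mul_of_pos_right _ hc
  omega

lemma num4 {C₁ : ℕ} (hC : 1 ≤ C₁) (r : ℕ) : 8 ≤ 64 * C₁ * (r + 1) := by
  have h1 : 64 * C₁ ≤ 64 * C₁ * (r + 1) := Nat.le_mul_of_pos_right _ (Nat.succ_pos r)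
  omega

lemma num5 (Z : ℕ) : Z ≤ 16 * (Z + 1) ^ 2 := by nlinarith

/-- The size of the set of live inputs is `N` divided by this number. -/
def cΓ (C₁ r B h x : ℕ) : ℕ := 64 * C₁ * (r + 1) * B * (2 * x) ^ h

lemma cΓ_mono {C₁ r B h x x' : ℕ} (hx : x ≤ x') : cΓ C₁ r B h x ≤ cΓ C₁ r B h x' := by
  unfold cΓ
  gcongr

theorem comb_aux (c C₁ : ℕ) (d : ℕ → ℕ) (hc : 1 ≤ c) (hC₁ : 1 ≤ C₁) : ∃ m N₀ : ℕ, 1 ≤ m ∧
    ∀ N q : ℕ, N₀ ≤ N → m * q ≤ N → ∀ C : Circuit N q, C.numWires ≤ c * N →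
      ∀ (E : Finset (Fin C.size)) (time : Fin C.size → ℕ), m * E.card ≤ N →
        (∀ i a j, C.src i a = Sum.inr j → j ∉ E → time j < time i) →
        (∀ j, 1 ≤ j → j ≤ m → ∀ l : List (Fin C.size),
          l.IsChain (fun u v => ∃ a, C.src v a = Sum.inr u) → (∀ v ∈ l, v ∉ E) →
          d j < l.countP (fun v => 2 ≤ C.fanOut v) → ∃ u ∈ l, ∃ v ∈ l, ∃ τ, time u ≤ τ ∧
            τ < time v ∧ j * (stored C E time τ).ncard ≤ N) →
        ∃ (G : Finset (Fin N)) (R : Finset (Fin C.size)), C.out ∈ R ∧ E ⊆ R ∧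
          C₁ * (leafWires C G R).card ≤ N ∧
          C₁ * (q + R.card + Nat.log 2 N + 1) ≤ G.card ∧ C₁ * G.card ≤ N := by
  classical
  -- constants
  obtain ⟨r, hr⟩ : ∃ r, r = 8 * c := ⟨_, rfl⟩
  obtain ⟨w₂, hw₂⟩ : ∃ w₂, w₂ = 24 * C₁ * r := ⟨_, rfl⟩
  obtain ⟨Q, hQ⟩ : ∃ Q, Q = 384 * C₁ * c := ⟨_, rfl⟩
  obtain ⟨b, hb⟩ : ∃ b, b = 4 * c * w₂ + 1 := ⟨_, rfl⟩
  obtain ⟨M₀, hM₀⟩ : ∃ M₀, M₀ = 8 * c * w₂ * (Q + 1) := ⟨_, rfl⟩
  obtain ⟨B, hB⟩ : ∃ B, B = 2 ^ b := ⟨_, rfl⟩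
  have hr1 : 1 ≤ r := by omega
  have hw₂1 : 24 ≤ w₂ := by rw [hw₂]; exact num2 hC₁ hr1
  have hQ1 : 1 ≤ Q := by rw [hQ]; exact num3 hC₁ hc
  have hB1 : 1 ≤ B := by rw [hB]; exact Nat.one_le_two_pow
  obtain ⟨hh, hhh⟩ : ∃ hh : ℕ → ℕ, hh = fun D => d D + 1 := ⟨_, rfl⟩
  obtain ⟨ee, hee⟩ : ∃ ee : ℕ → ℕ, ee = fun D => 64 * C₁ * B * (hh D + 1) := ⟨_, rfl⟩
  obtain ⟨Γ, hΓ⟩ : ∃ Γ : ℕ → ℕ → ℕ, Γ = fun D x => cΓ C₁ r B (hh D) x := ⟨_, rfl⟩
  choose Y hY using fun D => mid_choice c (ee D) (hh D) (fun x => 16 * C₁ * c * Γ D x)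
  obtain ⟨Ψ, hΨ⟩ : ∃ Ψ : ℕ → ℕ, Ψ = fun D => D + 16 * C₁ * (M₀ + 1) * Γ D (Y D) := ⟨_, rfl⟩
  obtain ⟨gD, hgD⟩ : ∃ gD : ℕ → ℕ, gD = fun k => Ψ^[k] 1 := ⟨_, rfl⟩
  have hgD0 : gD 0 = 1 := by rw [hgD]; rfl
  have hgDS : ∀ k, gD (k + 1) = Ψ (gD k) := by
    intro k; rw [hgD]; exact Function.iterate_succ_apply' Ψ k 1
  have hgDle : ∀ k, gD k ≤ gD (k + 1) := by
    intro k; rw [hgDS, hΨ]; exact Nat.le_add_right _ _
  have hgDpos : ∀ k, 1 ≤ gD k := by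
    intro k
    induction k with
    | zero => rw [hgD0]
    | succ k ih => exact ih.trans (hgDle k)
  obtain ⟨Z, hZ⟩ : ∃ Z, Z = ∑ k ∈ range (M₀ + 3),
    (gD k + 16 * C₁ * Γ (gD k) (Y (gD k))) := ⟨_, rfl⟩
  have hZk : ∀ k ≤ M₀ + 2, gD k + 16 * C₁ * Γ (gD k) (Y (gD k)) ≤ Z := by
    intro k hk
    rw [hZ]
    exact single_le_sum (f := fun k => gD k + 16 * C₁ * Γ (gD k) (Y (gD k)))
      (fun _ _ => Nat.zero_le _) (mem_range.2 (by omega))
  refine ⟨Z + 1, 16 * (Z + 1) ^ 2 + 2 * w₂ * (Q + 1) + 4 * B + 16, by omega, ?_⟩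
  intro N q hN hq C hwires E time hE htime hpath
  -- widths
  obtain ⟨W₂, hW₂⟩ : ∃ W₂, W₂ = N / w₂ := ⟨_, rfl⟩
  obtain ⟨W, hW⟩ : ∃ W, W = W₂ / (Q + 1) := ⟨_, rfl⟩
  have hwQ : w₂ * (Q + 1) ≤ N := by
    have : 2 * w₂ * (Q + 1) = 2 * (w₂ * (Q + 1)) := by ring
    omega
  have hw₂N : w₂ ≤ N := le_trans (Nat.le_mul_of_pos_right _ (by omega)) hwQ
  have hf1 : w₂ * W₂ ≤ N := by rw [hW₂]; exact Nat.mul_div_le _ _
  have hf2 : N ≤ 2 * w₂ * W₂ := by rw [hW₂]; exact half_up (by omega) hw₂N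
  have hQW₂ : Q + 1 ≤ W₂ := by
    rw [hW₂, Nat.le_div_iff_mul_le (by omega)]
    calc (Q + 1) * w₂ = w₂ * (Q + 1) := mul_comm _ _
      _ ≤ N := hwQ
  have hf3 : (Q + 1) * W ≤ W₂ := by rw [hW]; exact Nat.mul_div_le _ _
  have hW1 : 1 ≤ W := by
    rw [hW]
    exact (Nat.one_le_div_iff (by omega)).2 hQW₂
  have hf4 : W₂ ≤ 2 * (Q + 1) * W := by rw [hW]; exact half_up (by omega) hQW₂
  have hW₂1 : 1 ≤ W₂ := by omega
  have htotal : ∑ v, wtC C v ≤ 2 * c * N := by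
    refine (sum_wtC_le C).trans ?_
    calc 2 * C.numWires ≤ 2 * (c * N) := Nat.mul_le_mul_left _ hwires
      _ = 2 * c * N := by ring
  have hcumM : ∀ τ, cumW time (wtC C) τ / W ≤ M₀ := by
    intro τ
    apply Nat.div_le_of_le_mul
    calc cumW time (wtC C) τ ≤ ∑ v, wtC C v := cumW_le_total _ _ _
      _ ≤ 2 * c * N := htotal
      _ ≤ 2 * c * (2 * w₂ * (2 * (Q + 1) * W)) := by
          apply Nat.mul_le_mul_left
          exact hf2.trans (Nat.mul_le_mul_left _ hf4)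
      _ = W * M₀ := by rw [hM₀]; ring
  have hγ : ∀ v, cumL time (wtC C) (time v) / W₂ < b := by
    intro v
    have h1 : cumL time (wtC C) (time v) / W₂ ≤ 4 * c * w₂ := by
      apply Nat.div_le_of_le_mul
      calc cumL time (wtC C) (time v) ≤ ∑ v, wtC C v := cumL_le_total _ _ _
        _ ≤ 2 * c * N := htotal
        _ ≤ 2 * c * (2 * w₂ * W₂) := Nat.mul_le_mul_left _ hf2
        _ = W₂ * (4 * c * w₂) := by ring
    omega
  -- scales
  let Ak : ℕ → Finset ℕ := fun k => (range (M₀ + 1)).filter fun β =>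
    ∃ τ, gD k * (stored C E time τ).ncard ≤ N ∧ cumW time (wtC C) τ / W = β
  obtain ⟨k, hkM, hkA⟩ := exists_stationary Ak (M₀ + 1)
    ((card_filter_le _ _).trans (by simp)) (by
      intro k β hβ
      obtain ⟨h1, τ, h2, h3⟩ := mem_filter.1 hβ
      refine mem_filter.2 ⟨h1, τ, le_trans ?_ h2, h3⟩
      exact Nat.mul_le_mul_right _ (hgDle k))
  obtain ⟨A, hA⟩ : ∃ A, A = Ak k := ⟨_, rfl⟩
  have hA' : A = Ak (k + 1) := by rw [hA, hkA]
  obtain ⟨D, hD⟩ : ∃ D, D = gD k := ⟨_, rfl⟩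
  have hD1 : 1 ≤ D := by rw [hD]; exact hgDpos k
  obtain ⟨h, hh'⟩ : ∃ h, h = hh D := ⟨_, rfl⟩
  have hhd : h = d D + 1 := by rw [hh', hhh]
  have hexT : ∀ β, ∃ τ, β ∈ A → gD (k + 1) * (stored C E time τ).ncard ≤ N ∧
      cumW time (wtC C) τ / W = β := by
    intro β
    by_cases hβ : β ∈ A
    · have h1 := hβ
      rw [hA'] at h1
      obtain ⟨_, τ, h2⟩ := mem_filter.1 h1
      exact ⟨τ, fun _ => h2⟩
    · exact ⟨0, fun h => absurd h hβ⟩
  choose T hT using hexT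
  have hTW : ∀ β ∈ A, cumW time (wtC C) (T β) / W = β := fun β hβ => (hT β hβ).2
  have hAM : ∀ β ∈ A, β ≤ M₀ := by
    intro β hβ
    rw [← hTW β hβ]
    exact hcumM _
  have hthin : ∀ τ, D * (stored C E time τ).ncard ≤ N → cumW time (wtC C) τ / W ∈ A := by
    intro τ hτ
    rw [hA]
    refine mem_filter.2 ⟨mem_range.2 ?_, τ, by rw [← hD]; exact hτ, rfl⟩
    have := hcumM τ
    omega
  have hDZ : D + 16 * C₁ * Γ D (Y D) ≤ Z := by rw [hD]; exact hZk k (by omega)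
  have hsd : (midC C (Mid C time A T W Q) (Keep C E time A T W Q)).SharingDepthLE ∅ h := by
    rw [hhd]
    exact midC_sharing N D (d D) hTW hthin (hpath D hD1 (by omega))
  have hwires' : (midC C (Mid C time A T W Q) (Keep C E time A T W Q)).numWires ≤ c * N := hwires
  obtain ⟨x, y, Rc, hx1, hxY, hΦ, hchoice⟩ := hY D N
    (midC C (Mid C time A T W Q) (Keep C E time A T W Q)) hwires' (by rw [← hh']; exact hsd)
  -- the eligible inputs
  obtain ⟨n₀, hn₀⟩ : ∃ n₀, n₀ = N / (2 * B) := ⟨_, rfl⟩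
  have h2B : 2 * B ≤ N := by omega
  have hn₀1 : 1 ≤ n₀ := by rw [hn₀]; exact (Nat.one_le_div_iff (by omega)).2 h2B
  have hn₀a : 2 * (B * n₀) ≤ N := by
    have := Nat.mul_div_le N (2 * B)
    rw [← hn₀] at this
    calc 2 * (B * n₀) = 2 * B * n₀ := by ring
      _ ≤ N := this
  have hn₀b : N ≤ 4 * B * n₀ := by
    have := half_up (N := N) (w := 2 * B) (by omega) h2B
    rw [← hn₀] at this
    calc N ≤ 2 * (2 * B) * n₀ := this
      _ = 4 * B * n₀ := by ring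
  obtain ⟨Lc, hLc⟩ : ∃ Lc : Finset (Fin C.size), Lc = univ.filter fun v =>
    BigP time A T Q v ∧ Lower time (wtC C) A T W v := ⟨_, rfl⟩
  obtain ⟨Sm, hSm⟩ : ∃ Sm : Finset (Fin C.size), Sm = univ.filter fun v =>
    ¬ BigP time A T Q v := ⟨_, rfl⟩
  -- ends of big pieces
  have hends : ∀ X : ℕ, X ≤ (M₀ / Q + 1) * W → 24 * C₁ * X ≤ N := by
    intro X hX
    have h1 : Q * (M₀ / Q * W) ≤ 8 * c * N := by
      calc Q * (M₀ / Q * W) = (M₀ / Q * Q) * W := by ring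
        _ ≤ M₀ * W := Nat.mul_le_mul_right _ (Nat.div_mul_le_self _ _)
        _ = 8 * c * (w₂ * ((Q + 1) * W)) := by rw [hM₀]; ring
        _ ≤ 8 * c * (w₂ * W₂) := by gcongr
        _ ≤ 8 * c * N := by gcongr
    have h2 : 48 * C₁ * (M₀ / Q * W) ≤ N := by
      have h3 : (8 * c) * (48 * C₁ * (M₀ / Q * W)) ≤ (8 * c) * N := by
        calc (8 * c) * (48 * C₁ * (M₀ / Q * W)) = Q * (M₀ / Q * W) := by rw [hQ]; ring
          _ ≤ 8 * c * N := h1
      exact Nat.le_of_mul_le_mul_left h3 (by omega)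
    have h4 : 48 * C₁ * W ≤ N := by
      have h5 : 48 * C₁ ≤ w₂ * (Q + 1) := by
        rw [hQ]
        have h6 : 48 * C₁ ≤ 384 * C₁ * c + 1 := num1 hc
        calc 48 * C₁ ≤ 384 * C₁ * c + 1 := h6
          _ ≤ w₂ * (384 * C₁ * c + 1) := Nat.le_mul_of_pos_left _ (by omega)
      calc 48 * C₁ * W ≤ (w₂ * (Q + 1)) * W := Nat.mul_le_mul_right _ h5
        _ = w₂ * ((Q + 1) * W) := by ring
        _ ≤ w₂ * W₂ := Nat.mul_le_mul_left _ hf3
        _ ≤ N := hf1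
    have h5 : 48 * C₁ * X ≤ 48 * C₁ * ((M₀ / Q + 1) * W) := Nat.mul_le_mul_left _ hX
    have h6 : 48 * C₁ * ((M₀ / Q + 1) * W) = 48 * C₁ * (M₀ / Q * W) + 48 * C₁ * W := by ring
    have h7 : 48 * C₁ * X = 2 * (24 * C₁ * X) := by ring
    omega
  have hlow := hends _ (lower_wt (time := time) (wt := wtC C) (A := A) (T := T) (W := W) (Q := Q)
    M₀ hW1 hQ1 hTW hAM)
  have hup := hends _ (upper_wt (time := time) (wt := wtC C) (A := A) (T := T) (W := W) (Q := Q)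
    M₀ hW1 hQ1 hTW hAM)
  have hLcN : 24 * ∑ v ∈ Lc, C.arity v ≤ N := by
    have h1 : ∑ v ∈ Lc, C.arity v ≤ ∑ v ∈ Lc, wtC C v :=
      sum_le_sum fun v _ => Nat.le_add_right _ _
    have h2 : 24 * ∑ v ∈ Lc, wtC C v ≤ 24 * C₁ * ∑ v ∈ Lc, wtC C v :=
      Nat.mul_le_mul_right _ (by omega)
    rw [hLc] at h1 h2 ⊢
    omega
  have hcount : C.numWires + (r + 1) * (∑ v ∈ Lc, C.arity v) + (r + 1) * (2 ^ b * n₀) ≤
      (r + 1) * N := by
    rw [← hB]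
    have h1 : 8 * C.numWires ≤ r * N := by
      calc 8 * C.numWires ≤ 8 * (c * N) := Nat.mul_le_mul_left _ hwires
        _ = r * N := by rw [hr]; ring
    have h3 : 24 * ((r + 1) * (∑ v ∈ Lc, C.arity v)) ≤ (r + 1) * N := by
      calc 24 * ((r + 1) * (∑ v ∈ Lc, C.arity v)) = (r + 1) * (24 * ∑ v ∈ Lc, C.arity v) := by
            ring
        _ ≤ (r + 1) * N := Nat.mul_le_mul_left _ hLcN
    have h4 : 2 * ((r + 1) * (B * n₀)) ≤ (r + 1) * N := by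
      calc 2 * ((r + 1) * (B * n₀)) = (r + 1) * (2 * (B * n₀)) := by ring
        _ ≤ (r + 1) * N := Nat.mul_le_mul_left _ hn₀a
    have h8 : r * N ≤ (r + 1) * N := Nat.mul_le_mul_right _ (by omega)
    omega
  obtain ⟨Pset, G₀, hPcard, hG₀card, hG₀in, hG₀1, hG₀2⟩ := exists_G0 C r b n₀
    (fun v => cumL time (wtC C) (time v) / W₂) hγ Lc Sm hn₀1 hcount
  -- the live inputs
  obtain ⟨Γx, hΓx⟩ : ∃ Γx, Γx = Γ D x := ⟨_, rfl⟩
  have hΓx' : Γx = 64 * C₁ * (r + 1) * B * (2 * x) ^ h := by rw [hΓx, hΓ, hh']; rfl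
  have hΓY : Γx ≤ Γ D (Y D) := by rw [hΓx, hΓ]; exact cΓ_mono hxY
  have hpow1 : 1 ≤ (2 * x) ^ h := Nat.one_le_pow _ _ (by omega)
  have hΓbig : 64 * C₁ * (r + 1) * B ≤ Γx := by
    rw [hΓx']; exact Nat.le_mul_of_pos_right _ hpow1
  have hΓx1 : 1 ≤ Γx := by
    refine le_trans ?_ hΓbig
    apply Nat.succ_le_of_lt
    positivity
  have hΓZ : 16 * C₁ * Γx ≤ Z := by
    have : 16 * C₁ * Γx ≤ 16 * C₁ * Γ D (Y D) := Nat.mul_le_mul_left _ hΓY
    omega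
  have hZN : Z ≤ N := by
    have := num5 Z
    omega
  have hΓN : Γx ≤ N := by
    have : Γx ≤ 16 * C₁ * Γx := Nat.le_mul_of_pos_left _ (by omega)
    omega
  obtain ⟨g₀, hg₀⟩ : ∃ g₀, g₀ = N / Γx := ⟨_, rfl⟩
  have hg₀a : Γx * g₀ ≤ N := by rw [hg₀]; exact Nat.mul_div_le _ _
  have hg₀b : N ≤ 2 * Γx * g₀ := by rw [hg₀]; exact half_up hΓx1 hΓN
  have hg₀n : 2 * g₀ ≤ n₀ := by
    have h1 : 4 * B * (2 * g₀) ≤ 4 * B * n₀ := by
      calc 4 * B * (2 * g₀) = (8 * B) * g₀ := by ring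
        _ ≤ Γx * g₀ := by
            apply Nat.mul_le_mul_right
            refine le_trans ?_ hΓbig
            have h2 : 8 ≤ 64 * C₁ * (r + 1) := num4 hC₁ r
            exact Nat.mul_le_mul_right _ h2
        _ ≤ N := hg₀a
        _ ≤ _ := hn₀b
    exact Nat.le_of_mul_le_mul_left h1 (by omega)
  obtain ⟨G, hGsub, hGcard, ℓ, hℓ, hflow, hi, wi, hRccard, hhi, hwi⟩ :=
    hchoice G₀ g₀ (hg₀n.trans hG₀card)
  -- the cut set
  let st : ℕ → Finset (Fin C.size) := fun τ => (stored C E time τ).toFinite.toFinset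
  have hst : ∀ τ, (st τ).card = (stored C E time τ).ncard := by
    intro τ
    exact (Set.ncard_eq_toFinset_card _ (Set.toFinite _)).symm
  let Rw : Finset (Fin C.size) := (Rc : Finset (Fin C.size)).filter fun v => ℓ v ≠ 0
  let R : Finset (Fin C.size) := (({C.out} ∪ E) ∪ A.biUnion fun β => st (T β)) ∪ Rw
  have hout : C.out ∈ R :=
    mem_union_left _ (mem_union_left _ (mem_union_left _ (mem_singleton_self _)))
  have hER : E ⊆ R := fun x hx => mem_union_left _ (mem_union_left _ (mem_union_right _ hx))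
  have hcutR : ∀ β ∈ A, ∀ j ∈ stored C E time (T β), j ∈ R := by
    intro β hβ x hx
    refine mem_union_left _ (mem_union_right _ (mem_biUnion.2 ⟨β, hβ, ?_⟩))
    exact (Set.Finite.mem_toFinset _).2 hx
  have hRcR : ∀ v ∈ Rc, ℓ v ≠ 0 → v ∈ R := fun v hv h0 =>
    mem_union_right _ (mem_filter.2 ⟨hv, h0⟩)
  have hleaf := leaf_bound htime hTW R hER hcutR G Rc ℓ hℓ hRcR W₂ Pset
    (by
      intro v a g hs hg hbig hlow
      exact hG₀1 g (hGsub hg) v (by rw [hLc]; exact mem_filter.2 ⟨mem_univ _, hbig, hlow⟩) a hs)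
    (by
      intro v a g hs hg hbig
      exact hG₀2 g (hGsub hg) v (by rw [hSm]; exact mem_filter.2 ⟨mem_univ _, hbig⟩) a hs)
  refine ⟨G, R, hout, hER, ?_, ?_, ?_⟩
  · -- the live wires
    have hin : ∑ g ∈ G, inFan C g ≤ r * g₀ := by
      calc ∑ g ∈ G, inFan C g ≤ ∑ _g ∈ G, r := sum_le_sum fun g hg => hG₀in g (hGsub hg)
        _ = r * g₀ := by rw [sum_const, smul_eq_mul, hGcard, mul_comm]
    have hin' : inWires (midC C (Mid C time A T W Q) (Keep C E time A T W Q)) G ≤ r * g₀ := by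
      rw [inWires_eq]
      exact (sum_le_sum fun g _ => midC_inFan_le C _ _ g).trans hin
    have hsmall := small_wt (time := time) (wt := wtC C) (A := A) (T := T) (W := W) (Q := Q)
      W₂ hW1 hf3 hTW Pset
    have hsm : 8 * C₁ * (3 * Pset.card * W₂) ≤ N := by
      calc 8 * C₁ * (3 * Pset.card * W₂) = (24 * C₁ * Pset.card) * W₂ := by ring
        _ ≤ (24 * C₁ * r) * W₂ := by gcongr
        _ = w₂ * W₂ := by rw [hw₂]
        _ ≤ N := hf1
    have hfl : 64 * C₁ * (r * g₀ * (2 * x) ^ h) ≤ N := by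
      calc 64 * C₁ * (r * g₀ * (2 * x) ^ h) = (64 * C₁ * r * 1 * (2 * x) ^ h) * g₀ := by ring
        _ ≤ (64 * C₁ * (r + 1) * B * (2 * x) ^ h) * g₀ := by gcongr; omega
        _ = Γx * g₀ := by rw [hΓx']
        _ ≤ N := hg₀a
    have hrg : 64 * C₁ * (r * g₀) ≤ N := by
      refine le_trans ?_ hfl
      apply Nat.mul_le_mul_left
      exact Nat.le_mul_of_pos_right _ hpow1
    obtain ⟨wU, hwU⟩ : ∃ wU, wU = ∑ v ∈ univ.filter (fun v => BigP time A T Q v ∧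
      Upper time (wtC C) A T W v), wtC C v := ⟨_, rfl⟩
    obtain ⟨wS, hwS⟩ : ∃ wS, wS = ∑ v ∈ univ.filter (fun v => ¬ BigP time A T Q v ∧
        ∃ j, Same time A T j v ∧ cumL time (wtC C) (time j) / W₂ ∈ Pset), wtC C v := ⟨_, rfl⟩
    rw [← hwU] at hup
    rw [← hwS] at hsmall
    have hflow' := hflow.trans (Nat.mul_le_mul_right _ hin')
    have hleaf' : (leafWires C G R).card ≤ r * g₀ + (3 * wU + wS + r * g₀ * (2 * x) ^ h) := by
      rw [hwU, hwS]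
      rw [← hh'] at hflow'
      refine hleaf.trans (Nat.add_le_add hin ?_)
      exact Nat.add_le_add_left hflow' _
    have h1 : C₁ * (leafWires C G R).card ≤
        C₁ * (r * g₀ + (3 * wU + 3 * Pset.card * W₂ + r * g₀ * (2 * x) ^ h)) := by
      apply Nat.mul_le_mul_left
      omega
    have h2 : 64 * (C₁ * (r * g₀ + (3 * wU + 3 * Pset.card * W₂ + r * g₀ * (2 * x) ^ h))) =
        64 * C₁ * (r * g₀) + 8 * (24 * C₁ * wU) + 8 * (8 * C₁ * (3 * Pset.card * W₂)) +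
        64 * C₁ * (r * g₀ * (2 * x) ^ h) := by ring
    omega
  · -- the cut set is small
    rw [hGcard]
    have hAcard : A.card ≤ M₀ + 1 := by
      rw [hA]
      exact (card_filter_le _ _).trans (by simp)
    have hcuts : 8 * C₁ * ∑ β ∈ A, (st (T β)).card ≤ g₀ := by
      have h1 : ∀ β ∈ A, 8 * C₁ * (M₀ + 1) * (st (T β)).card ≤ g₀ := by
        intro β hβ
        have h2 := (hT β hβ).1
        rw [← hst, hgDS, hΨ, ← hD] at h2
        have h3 : (2 * Γx) * (8 * C₁ * (M₀ + 1) * (st (T β)).card) ≤ (2 * Γx) * g₀ := by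
          calc (2 * Γx) * (8 * C₁ * (M₀ + 1) * (st (T β)).card)
              = (16 * C₁ * (M₀ + 1) * Γx) * (st (T β)).card := by ring
            _ ≤ (16 * C₁ * (M₀ + 1) * Γ D (Y D)) * (st (T β)).card := by gcongr
            _ ≤ (D + 16 * C₁ * (M₀ + 1) * Γ D (Y D)) * (st (T β)).card :=
                Nat.mul_le_mul_right _ (Nat.le_add_left _ _)
            _ ≤ N := h2
            _ ≤ 2 * Γx * g₀ := hg₀b
        exact Nat.le_of_mul_le_mul_left h3 (by omega)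
      have h2 : (M₀ + 1) * (8 * C₁ * ∑ β ∈ A, (st (T β)).card) ≤ (M₀ + 1) * g₀ := by
        calc (M₀ + 1) * (8 * C₁ * ∑ β ∈ A, (st (T β)).card)
            = ∑ β ∈ A, 8 * C₁ * (M₀ + 1) * (st (T β)).card := by
              rw [← mul_sum]; ring
          _ ≤ ∑ _β ∈ A, g₀ := sum_le_sum h1
          _ = A.card * g₀ := by rw [sum_const, smul_eq_mul]
          _ ≤ (M₀ + 1) * g₀ := Nat.mul_le_mul_right _ hAcard
      exact Nat.le_of_mul_le_mul_left h2 (by omega)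
    have hsmall : ∀ X : ℕ, (Z + 1) * X ≤ N → 8 * C₁ * X ≤ g₀ := by
      intro X hX
      have h1 : (2 * Γx) * (8 * C₁ * X) ≤ (2 * Γx) * g₀ := by
        calc (2 * Γx) * (8 * C₁ * X) = (16 * C₁ * Γx) * X := by ring
          _ ≤ (Z + 1) * X := Nat.mul_le_mul_right _ (by omega)
          _ ≤ N := hX
          _ ≤ 2 * Γx * g₀ := hg₀b
      exact Nat.le_of_mul_le_mul_left h1 (by omega)
    have hEs := hsmall _ hE
    have hqs := hsmall _ hq
    have hhis : 8 * C₁ * hi ≤ g₀ := by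
      have h1 : (2 * c * Γx) * (8 * C₁ * hi) ≤ (2 * c * Γx) * g₀ := by
        calc (2 * c * Γx) * (8 * C₁ * hi) = (16 * C₁ * c * Γx) * hi := by ring
          _ = (16 * C₁ * c * Γ D x) * hi := by rw [hΓx]
          _ ≤ y * hi := Nat.mul_le_mul_right _ hΦ
          _ ≤ c * N := hhi
          _ ≤ c * (2 * Γx * g₀) := Nat.mul_le_mul_left _ hg₀b
          _ = (2 * c * Γx) * g₀ := by ring
      exact Nat.le_of_mul_le_mul_left h1 (by positivity)
    have hwis : 8 * C₁ * wi ≤ g₀ := by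
      have h1 : (8 * B * (h + 1) * n₀) * (8 * C₁ * wi) ≤ (8 * B * (h + 1) * n₀) * g₀ := by
        calc (8 * B * (h + 1) * n₀) * (8 * C₁ * wi)
            = (64 * C₁ * B * (h + 1)) * (n₀ * wi) := by ring
          _ ≤ (64 * C₁ * B * (h + 1)) * (G₀.card * wi) := by gcongr
          _ = ee D * (G₀.card * wi) := by rw [hee, hh']
          _ ≤ 2 * g₀ * (hh D * N) := hwi
          _ ≤ 2 * g₀ * ((h + 1) * (4 * B * n₀)) := by
              rw [← hh']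
              gcongr
              omega
          _ = (8 * B * (h + 1) * n₀) * g₀ := by ring
      exact Nat.le_of_mul_le_mul_left h1 (by positivity)
    have hlogs : 8 * C₁ * (Nat.log 2 N + 3) ≤ g₀ := by
      apply hsmall
      apply log_small _ (by omega)
      omega
    have hRcard : R.card ≤ 1 + E.card + ∑ β ∈ A, (st (T β)).card + (1 + hi + wi) := by
      refine (card_union_le _ _).trans (Nat.add_le_add ?_ hRccard)
      refine (card_union_le _ _).trans (Nat.add_le_add ?_ card_biUnion_le)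
      refine (card_union_le _ _).trans ?_
      rw [card_singleton]
    have h1 : 8 * (C₁ * (q + R.card + Nat.log 2 N + 1)) ≤
        8 * C₁ * q + 8 * C₁ * E.card + 8 * C₁ * ∑ β ∈ A, (st (T β)).card + 8 * C₁ * hi +
          8 * C₁ * wi + 8 * C₁ * (Nat.log 2 N + 3) := by
      calc 8 * (C₁ * (q + R.card + Nat.log 2 N + 1)) ≤
          8 * (C₁ * (q + (1 + E.card + ∑ β ∈ A, (st (T β)).card + (1 + hi + wi)) +
            Nat.log 2 N + 1)) := by gcongr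
        _ = _ := by ring
    omega
  · rw [hGcard]
    calc C₁ * g₀ ≤ Γx * g₀ := by
          apply Nat.mul_le_mul_right
          refine le_trans ?_ hΓbig
          calc C₁ ≤ 64 * C₁ := by omega
            _ ≤ 64 * C₁ * ((r + 1) * B) := Nat.le_mul_of_pos_right _ (by positivity)
            _ = 64 * C₁ * (r + 1) * B := by ring
      _ ≤ N := hg₀a

theorem comb (c C₁ : ℕ) (d : ℕ → ℕ) : ∃ m N₀ : ℕ, 1 ≤ m ∧
    ∀ N q : ℕ, N₀ ≤ N → m * q ≤ N → ∀ C : Circuit N q, C.numWires ≤ c * N →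
      ∀ (E : Finset (Fin C.size)) (time : Fin C.size → ℕ), m * E.card ≤ N →
        (∀ i a j, C.src i a = Sum.inr j → j ∉ E → time j < time i) →
        (∀ j, 1 ≤ j → j ≤ m → ∀ l : List (Fin C.size),
          l.IsChain (fun u v => ∃ a, C.src v a = Sum.inr u) → (∀ v ∈ l, v ∉ E) →
          d j < l.countP (fun v => 2 ≤ C.fanOut v) → ∃ u ∈ l, ∃ v ∈ l, ∃ τ, time u ≤ τ ∧
            τ < time v ∧ j * (stored C E time τ).ncard ≤ N) →
        ∃ (G : Finset (Fin N)) (R : Finset (Fin C.size)), C.out ∈ R ∧ E ⊆ R ∧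
          C₁ * (leafWires C G R).card ≤ N ∧
          C₁ * (q + R.card + Nat.log 2 N + 1) ≤ G.card ∧ C₁ * G.card ≤ N := by
  obtain ⟨m, N₀, hm, h⟩ := comb_aux (c + 1) (C₁ + 1) d (by omega) (by omega)
  refine ⟨m, N₀, hm, ?_⟩
  intro N q hN hq C hwires E time hE htime hpath
  obtain ⟨G, R, h1, h2, h3, h4, h5⟩ := h N q hN hq C
    (hwires.trans (Nat.mul_le_mul_right _ (Nat.le_succ c))) E time hE htime hpath
  have hC : C₁ ≤ C₁ + 1 := Nat.le_succ C₁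
  exact ⟨G, R, h1, h2, (Nat.mul_le_mul_right _ hC).trans h3, (Nat.mul_le_mul_right _ hC).trans h4,
    (Nat.mul_le_mul_right _ hC).trans h5⟩

end Pool.Agent.Y633.Gen
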